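import Pool.Agent.Helper64.CT.Stmts

set_option autoImplicit false

namespace Pool.Agent.Helper64.CT

theorem ex1_far {V : Type} (G : SimpleGraph V) (S : Set V) (x y : S) :
    y ∈ Far (G.induce S) x ↔ y.1 ∈ Far G x.1 := by
  unfold Far
  simp only [Set.mem_setOf_eq, ne_eq, SimpleGraph.comap_adj, Function.Embedding.subtype_apply,
    Subtype.ext_iff]

theorem st_EX1 : ST_EX1 := by
  intro V G A a b hC ha hb hab x y z hyz
  have hstep : ∀ (w w' : V) (hw : w ∈ (insert b A : Set V)) (hw' : w' ∈ (insert b A : Set V)),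
      Comp (G.induce (insert b A)) x y ⟨w, hw⟩ → w' ∈ Far G x.1 → G.Adj w w' →
      Comp (G.induce (insert b A)) x y ⟨w', hw'⟩ := by
    intro w w' hw hw' h1 h2 h3
    exact h1.step ((ex1_far G _ x ⟨w', hw'⟩).2 h2) (by simpa using h3)
  have hrefl : Comp (G.induce (insert b A)) x y y :=
    Comp.refl ((ex1_far G _ x y).2 hyz.left)
  -- the two easy cases
  have heasy : y.1 ∈ A → (∀ w w' : V, w ∈ A → w ∈ Far G x.1 → w' ∉ A → w' ∈ Far G x.1 →
      ¬ G.Adj w w') → Comp (G.induce (insert b A)) x y z := by
    intro hy hno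
    have h1 : ∃ hw : z.1 ∈ A, Comp (G.induce (insert b A)) x y
        ⟨z.1, Set.mem_insert_of_mem b hw⟩ := by
      refine Comp.ind hyz (fun w => ∃ hw : w ∈ A, Comp (G.induce (insert b A)) x y
        ⟨w, Set.mem_insert_of_mem b hw⟩) ⟨hy, hrefl⟩ ?_
      rintro w w' hw ⟨hwA, hP⟩ hw' hadj
      by_cases hw'A : w' ∈ A
      · exact ⟨hw'A, hstep w w' _ _ hP hw' hadj⟩
      · exact absurd hadj (hno w w' hwA hw.right hw'A hw')
    obtain ⟨_, h2⟩ := h1
    exact h2
  rcases Set.mem_insert_iff.1 x.2 with hx | hx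
  · -- `x = b`
    have hy : y.1 ∈ A := by
      rcases Set.mem_insert_iff.1 y.2 with h | h
      · exact absurd (h.trans hx.symm) hyz.left.1
      · exact h
    refine heasy hy ?_
    intro w w' hw hwf hw' _ hadj
    rw [hx] at hwf
    exact hwf.2 (hC w hw a ha w' hw' b hb hadj hab).symm
  · by_cases hxb : G.Adj x.1 b
    · have hy : y.1 ∈ A := by
        rcases Set.mem_insert_iff.1 y.2 with h | h
        · have := hyz.left.2
          rw [h] at this
          exact absurd hxb this
        · exact h
      refine heasy hy ?_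
      intro w w' hw _ hw' hwf' hadj
      exact hwf'.2 (hC x.1 hx w hw b hb w' hw' hxb hadj)
    · have hbf : b ∈ Far G x.1 := by
        refine ⟨?_, hxb⟩
        intro h
        rw [h] at hb
        exact hb hx
      have hbm : b ∈ (insert b A : Set V) := Set.mem_insert b A
      have h1 : (∀ hw : z.1 ∈ A, Comp (G.induce (insert b A)) x y
          ⟨z.1, Set.mem_insert_of_mem b hw⟩) ∧
          (z.1 ∉ A → Comp (G.induce (insert b A)) x y ⟨b, hbm⟩) := by
        refine Comp.ind hyz (fun w => (∀ hw : w ∈ A, Comp (G.induce (insert b A)) x y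
          ⟨w, Set.mem_insert_of_mem b hw⟩) ∧
          (w ∉ A → Comp (G.induce (insert b A)) x y ⟨b, hbm⟩)) ?_ ?_
        · refine ⟨fun _ => hrefl, fun hy => ?_⟩
          rcases Set.mem_insert_iff.1 y.2 with h | h
          · have : (⟨b, hbm⟩ : (insert b A : Set V)) = y := Subtype.ext h.symm
            rw [this]
            exact hrefl
          · exact absurd h hy
        · rintro w w' hw ⟨hP1, hP2⟩ hw' hadj
          by_cases hwA : w ∈ A
          · by_cases hw'A : w' ∈ A
            · exact ⟨fun _ => hstep w w' _ _ (hP1 hwA) hw' hadj, fun h => absurd hw'A h⟩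
            · refine ⟨fun h => absurd h hw'A, fun _ => ?_⟩
              exact hstep w b _ _ (hP1 hwA) hbf (hC w hwA a ha w' hw'A b hb hadj hab)
          · by_cases hw'A : w' ∈ A
            · refine ⟨fun _ => ?_, fun h => absurd hw'A h⟩
              exact hstep b w' _ _ (hP2 hwA) hw'
                (hC w' hw'A a ha w hwA b hb hadj.symm hab).symm
            · exact ⟨fun h => absurd h hw'A, fun _ => hP2 hwA⟩
      by_cases hzA : z.1 ∈ A
      · exact h1.1 hzA
      · have hz : z = ⟨b, hbm⟩ := by
          rcases Set.mem_insert_iff.1 z.2 with h | h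
          · exact Subtype.ext h
          · exact absurd h hzA
        rw [hz]
        exact h1.2 hzA

end Pool.Agent.Helper64.CT
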